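import Pool.Agent.H741.RS.Stm

set_option autoImplicit false
open scoped ComplexConjugate

namespace Pool.Agent.H741.RS

theorem big_ev_bound {n : ℕ} (k : ℕ) (P : MvPolynomial (Fin n) ℂ) (hP : P.totalDegree ≤ k) :
    ∃ C : ℝ, 0 ≤ C ∧ ∀ z : V n, 1 ≤ ‖z‖ → ‖ev P z‖ ≤ C * ‖z‖ ^ k := by
  refine ⟨∑ m ∈ P.support, ‖P.coeff m‖, Finset.sum_nonneg fun m _ => norm_nonneg _, ?_⟩
  intro z hz
  unfold ev
  rw [MvPolynomial.eval_eq, Finset.sum_mul]
  refine (norm_sum_le _ _).trans (Finset.sum_le_sum ?_)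
  intro m hm
  rw [norm_mul]
  refine mul_le_mul_of_nonneg_left ?_ (norm_nonneg _)
  rw [norm_prod]
  have h1 : ∀ i ∈ m.support, ‖(z i) ^ m i‖ ≤ ‖z‖ ^ m i := by
    intro i _
    rw [norm_pow]
    exact pow_le_pow_left₀ (norm_nonneg _) (PiLp.norm_apply_le z i) _
  have h2 : ∏ i ∈ m.support, ‖(z i) ^ m i‖ ≤ ∏ i ∈ m.support, ‖z‖ ^ m i :=
    Finset.prod_le_prod (fun i _ => norm_nonneg _) h1
  refine h2.trans ?_
  rw [Finset.prod_pow_eq_pow_sum]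
  refine pow_le_pow_right₀ hz ?_
  have h3 := MvPolynomial.le_totalDegree hm
  have h4 : (∑ i ∈ m.support, m i) = m.sum fun _ e => e := rfl
  omega

theorem big_ker_bound {n : ℕ} (k : ℕ) (v : V n → V n → ℂ) (hv : Ker k k v) :
    ∃ C : ℝ, 0 ≤ C ∧ ∀ z : V n, 1 ≤ ‖z‖ → ‖v z z‖ ≤ C * (‖z‖ ^ 2) ^ k := by
  obtain ⟨m, a, b, hab, h⟩ := hv
  choose A hA0 hA using fun i => big_ev_bound k (a i) (hab i).1
  choose B hB0 hB using fun i => big_ev_bound k (b i) (hab i).2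
  refine ⟨∑ i, A i * B i, Finset.sum_nonneg fun i _ => mul_nonneg (hA0 i) (hB0 i), ?_⟩
  intro z hz
  rw [h z z, Finset.sum_mul]
  refine (norm_sum_le _ _).trans (Finset.sum_le_sum ?_)
  intro i _
  rw [norm_mul, RCLike.norm_conj]
  have h1 := hA i z hz
  have h2 := hB i z hz
  have h3 : (0 : ℝ) ≤ ‖ev (b i) z‖ := norm_nonneg _
  have h4 : (0 : ℝ) ≤ A i * ‖z‖ ^ k := mul_nonneg (hA0 i) (pow_nonneg (norm_nonneg _) _)
  calc ‖ev (a i) z‖ * ‖ev (b i) z‖ ≤ (A i * ‖z‖ ^ k) * (B i * ‖z‖ ^ k) := mul_le_mul h1 h2 h3 h4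
    _ = A i * B i * (‖z‖ ^ 2) ^ k := by ring

theorem t_BIG : S_BIG := by
  intro n k v _ hv
  obtain ⟨C, hC0, hC⟩ := big_ker_bound k v hv
  have hk : (0 : ℝ) < 2 * ((k : ℝ) + 2) := by positivity
  refine ⟨1 / (2 * ((k : ℝ) + 2) * (C + 1)), by positivity, ?_⟩
  intro ε hε hε1
  have hεC : ε * C ≤ 1 / (2 * ((k : ℝ) + 2)) := by
    rw [lt_div_iff₀ (by positivity)] at hε1
    rw [le_div_iff₀ hk]
    nlinarith [mul_pos hε hk]
  refine ⟨1 / (4 * ((k : ℝ) + 2) * 2 ^ (k + 1)), by positivity, ?_⟩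
  intro z hz
  set t : ℝ := ‖z‖ ^ 2 with ht
  have ht1 : 1 ≤ t := by rw [ht]; nlinarith
  have hhp : hp z z = ((t : ℝ) : ℂ) := by
    unfold hp
    rw [inner_self_eq_norm_sq_to_K]
    push_cast [ht]
    rfl
  have hu : u0 k z z = ((∑ j ∈ Finset.range (k + 1), (1 / ((j : ℝ) + 2)) * t ^ j : ℝ) : ℂ) := by
    unfold u0
    rw [hhp]
    push_cast
    rfl
  have hre : (2 - (1 - hp z z) * (u0 k z z + ε * v z z)).re
      = 2 + (t - 1) * ((∑ j ∈ Finset.range (k + 1), (1 / ((j : ℝ) + 2)) * t ^ j) + ε * (v z z).re) := by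
    rw [hu, hhp]
    have e1 : (2 : ℂ) - (1 - (t : ℂ)) * ((((∑ j ∈ Finset.range (k + 1), (1 / ((j : ℝ) + 2)) * t ^ j : ℝ)) : ℂ) + ε * v z z)
        = ((2 + (t - 1) * (∑ j ∈ Finset.range (k + 1), (1 / ((j : ℝ) + 2)) * t ^ j) : ℝ) : ℂ)
          + (((t - 1) * ε : ℝ) : ℂ) * v z z := by
      push_cast
      ring
    rw [e1, Complex.add_re, Complex.ofReal_re, Complex.re_ofReal_mul]
    ring
  rw [hre]
  have hsum : 1 / ((k : ℝ) + 2) * t ^ k ≤ ∑ j ∈ Finset.range (k + 1), (1 / ((j : ℝ) + 2)) * t ^ j := by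
    refine Finset.single_le_sum (f := fun j : ℕ => (1 / ((j : ℝ) + 2)) * t ^ j) ?_ (Finset.self_mem_range_succ k)
    intro j _
    positivity
  have hvz : -(C * t ^ k) ≤ (v z z).re := by
    have h1 := hC z hz
    have h2 := Complex.abs_re_le_norm (v z z)
    have h3 := neg_abs_le (v z z).re
    linarith
  have htk : (0 : ℝ) < t ^ k := by positivity
  have hmain : 1 / (2 * ((k : ℝ) + 2)) * t ^ k ≤
      (∑ j ∈ Finset.range (k + 1), (1 / ((j : ℝ) + 2)) * t ^ j) + ε * (v z z).re := by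
    have h1 : ε * (-(C * t ^ k)) ≤ ε * (v z z).re := mul_le_mul_of_nonneg_left hvz hε.le
    have h2 : ε * C * t ^ k ≤ 1 / (2 * ((k : ℝ) + 2)) * t ^ k := mul_le_mul_of_nonneg_right hεC htk.le
    have h3 : 1 / ((k : ℝ) + 2) * t ^ k = 2 * (1 / (2 * ((k : ℝ) + 2)) * t ^ k) := by
      field_simp
    nlinarith
  have hpow : ‖z‖ ^ (2 * (k + 1)) = t ^ (k + 1) := by rw [ht, ← pow_mul]
  rw [hpow]
  have h5 : 2 + (t - 1) * (1 / (2 * ((k : ℝ) + 2)) * t ^ k) ≤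
      2 + (t - 1) * ((∑ j ∈ Finset.range (k + 1), (1 / ((j : ℝ) + 2)) * t ^ j) + ε * (v z z).re) := by
    have := mul_le_mul_of_nonneg_left hmain (sub_nonneg.2 ht1)
    linarith
  refine le_trans ?_ h5
  rcases le_total t 2 with h2 | h2
  · have h6 : t ^ (k + 1) ≤ 2 ^ (k + 1) := pow_le_pow_left₀ (by linarith) h2 _
    have h7 : 1 / (4 * ((k : ℝ) + 2) * 2 ^ (k + 1)) * t ^ (k + 1) ≤ 1 := by
      rw [div_mul_eq_mul_div, one_mul, div_le_one (by positivity)]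
      have : (1 : ℝ) ≤ 4 * ((k : ℝ) + 2) := by
        have : (0 : ℝ) ≤ k := Nat.cast_nonneg k
        linarith
      nlinarith [pow_pos (show (0 : ℝ) < 2 by norm_num) (k + 1)]
    have h8 : 0 ≤ (t - 1) * (1 / (2 * ((k : ℝ) + 2)) * t ^ k) :=
      mul_nonneg (by linarith) (by positivity)
    linarith
  · have h6 : t / 2 * (1 / (2 * ((k : ℝ) + 2)) * t ^ k) ≤ (t - 1) * (1 / (2 * ((k : ℝ) + 2)) * t ^ k) :=
      mul_le_mul_of_nonneg_right (by linarith) (by positivity)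
    have h7 : 1 / (4 * ((k : ℝ) + 2) * 2 ^ (k + 1)) * t ^ (k + 1) ≤ 1 / (4 * ((k : ℝ) + 2)) * t ^ (k + 1) := by
      refine mul_le_mul_of_nonneg_right ?_ (by positivity)
      refine one_div_le_one_div_of_le (by positivity) ?_
      have h8 : (1 : ℝ) ≤ 2 ^ (k + 1) := one_le_pow₀ (by norm_num)
      nlinarith [hk]
    have h8 : t / 2 * (1 / (2 * ((k : ℝ) + 2)) * t ^ k) = 1 / (4 * ((k : ℝ) + 2)) * t ^ (k + 1) := by
      rw [pow_succ]
      field_simp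
      ring
    linarith

end Pool.Agent.H741.RS
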